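import Pool.Agent.Helper96.EL.All
import Pool.Agent.Helper39.EL.NT
import Pool.Agent.Helper50.EL.NS
import Pool.Agent.Helper98.EL.STEP

/-!
# MP_e44225_nt: on elliptic curves the constant must be at least half the rank

`X` is an elliptic curve over a number field `k`, given by a Weierstrass equation `W`, with origin
`O`; `D = [O] + ∑_{t ∈ T} [t]`; the canonical sheaf is trivial.  The definitions (`Pt`, `deg`, `ht`,
`logDiscr`, `prox`, `Fails`) are in `Pool/Agent/Helper96/EL/Defs.lean`.
-/

open NumberField
open Pool.Agent.Helper96.EL
open Pool.Agent.Results.MP_e44225_nt.SUnitDisproof (Place)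

namespace Pool.Agent.Results.MP_e44225_nt.EllipticRank

universe u

/-- **Vojta's inequality with a logarithmic error term on elliptic curves.**
Let `X` be the elliptic curve `W` over the number field `k`, with `ρ ≥ 1` independent `k`-rational
points, `D = [O] + ∑_{t ∈ T} [t]`, `S` a nonempty finite set of places of `k`, `r ≥ 1` and
`C < ρ / 2`.  Then the inequality `h_K(P) + m_S(D, P) < C log⁺ h_A(P) + d(P)` fails at infinitely
many algebraic points `P` of degree at most `r` outside the support of `D`, for all choices of the
heights and of the proximity function.  Consequently, for every elliptic curve over `k` and every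
`C` there is a number field `K` containing `k` over which the inequality fails for every such `D`,
every `r ≥ 1` and every nonempty `S`. -/
theorem result :
    (∀ (k : Type u) [Field k] [NumberField k] [DecidableEq k] (W : WeierstrassCurve.Affine k)
      [W.IsElliptic] (ρ : ℕ) (P : Fin ρ → W.Point), 0 < ρ → LinearIndependent ℤ P →
      ∀ (T : Finset (Pt W)) (r : ℕ), 1 ≤ r → ∀ S : Finset (Place k), S.Nonempty →
        ∀ C : ℝ, C < (ρ : ℝ) / 2 → Fails k W T r S C) ∧
    (∀ (k : Type u) [Field k] [NumberField k] (W : WeierstrassCurve.Affine k) [W.IsElliptic]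
      (C : ℝ), ∃ (K : Type u) (_ : Field K) (_ : NumberField K) (_ : Algebra k K),
        ∀ (T : Finset (Pt (W.baseChange K))) (r : ℕ), 1 ≤ r →
        ∀ S : Finset (Place K), S.Nonempty → Fails K (W.baseChange K) T r S C) :=
  ⟨main, main2_of main (Pool.Agent.Helper98.EL.step Pool.Agent.Helper39.EL.nt
    Pool.Agent.Helper50.EL.ns)⟩

end Pool.Agent.Results.MP_e44225_nt.EllipticRank
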