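import Mathlib

/-!
# Q1 of MP_e44225_nt is false over every number field

`X` is the projective line over a number field `k`, with affine coordinate `x`;
`D = [∞] + ∑_{a ∈ E} [a]` for a finite set `E ⊆ k` containing `0` and `1`; `A = O(n)` with `n ≥ 1`;
the canonical sheaf is `O(-2)`.  All heights are normalised relative to `k`.
-/

open NumberField Height IsDedekindDomain
open scoped Real IntermediateField

namespace Pool.Agent.Results.MP_e44225_nt.SUnitDisproof

universe u

/-- `log⁺ t = log max(1, t)`. -/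
noncomputable def logPlus (t : ℝ) : ℝ := Real.log (max 1 t)

/-- All places of the number field `L`: the infinite ones and the finite ones. -/
abbrev Place (L : Type u) [Field L] [NumberField L] : Type u :=
  InfinitePlace L ⊕ FinitePlace L

/-- The normalised absolute value `‖y‖_w` on the number field `L`: the usual absolute value of `y`
at the infinite place `w`, raised to the local degree (1 if real, 2 if complex), and
`N(𝔭) ^ (-ord_𝔭 y)` at the finite place `w` of the prime ideal `𝔭`. -/
noncomputable def nabs {L : Type u} [Field L] [NumberField L] (w : Place L) (y : L) : ℝ :=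
  Sum.elim (fun w : InfinitePlace L => w y ^ w.mult) (fun w : FinitePlace L => w y) w

/-- The place `w` of `L` lies above the place `v` of `k`: both are infinite and `w` restricts to
`v`, or both are finite and the prime ideal of `w` lies over the prime ideal of `v`. -/
def Above {k L : Type u} [Field k] [NumberField k] [Field L] [NumberField L] [Algebra k L]
    (v : Place k) (w : Place L) : Prop :=
  (∃ (v' : InfinitePlace k) (w' : InfinitePlace L), v = Sum.inl v' ∧ w = Sum.inl w' ∧
      w'.comap (algebraMap k L) = v') ∨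
  (∃ (v' : FinitePlace k) (w' : FinitePlace L), v = Sum.inr v' ∧ w = Sum.inr w' ∧
      w'.maximalIdeal.asIdeal.LiesOver v'.maximalIdeal.asIdeal)

/-- The standard local Weil function at the place `w` of `L`, evaluated at the point with affine
coordinate `y ∈ L`, of the reduced divisor `D = [∞] + ∑_{a ∈ E} [a]` on the projective line. -/
noncomputable def weil {k L : Type u} [Field k] [Field L] [NumberField L] [Algebra k L]
    (E : Finset k) (w : Place L) (y : L) : ℝ :=
  logPlus (nabs w y) + ∑ a ∈ E, logPlus (nabs w (y - algebraMap k L a)⁻¹)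

section points

variable {k : Type u} [Field k] [NumberField k]

/-- The residue field `k_x = k(x)` of the point with affine coordinate `x ∈ k^alg` is a number
field. -/
instance numberField_adjoin (x : AlgebraicClosure k) : NumberField k⟮x⟯ :=
  haveI : FiniteDimensional k k⟮x⟯ :=
    IntermediateField.adjoin.finiteDimensional (Algebra.IsIntegral.isIntegral x)
  NumberField.of_module_finite k k⟮x⟯

/-- The degree `[k_x : k]`. -/
noncomputable def degree (x : AlgebraicClosure k) : ℕ := Module.finrank k k⟮x⟯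

/-- The Weil height of `O(1)` at `x`, normalised relative to `k`: the height of `x` over its
residue field `k_x` divided by `[k_x : k]`. -/
noncomputable def height (x : AlgebraicClosure k) : ℝ :=
  logHeight₁ (IntermediateField.AdjoinSimple.gen k x) / degree x

/-- The logarithmic discriminant `d(x) = log |Disc k_x| / [k_x : k]`. -/
noncomputable def logDisc (x : AlgebraicClosure k) : ℝ :=
  Real.log |(NumberField.discr k⟮x⟯ : ℝ)| / degree x

/-- The standard proximity function `m_S(D, x)` of `D = [∞] + ∑_{a ∈ E} [a]` relative to the finite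
set `S` of places of `k`, at the point with affine coordinate `x ∈ k^alg`: the sum of the Weil
functions of `D` over the places of `k_x` above `S`, divided by `[k_x : k]`. -/
noncomputable def prox (S : Finset (Place k)) (E : Finset k) (x : AlgebraicClosure k) : ℝ :=
  (∑ᶠ w ∈ {w : Place k⟮x⟯ | ∃ v ∈ S, Above v w},
    weil E w (IntermediateField.AdjoinSimple.gen k x)) / degree x

end points

/-- `Fails k E n r S C`: for `X = ℙ¹` over `k`, `D = [∞] + ∑_{a ∈ E} [a]` and `A = O(n)`, whatever
the choice of the Weil heights `hK` of the canonical sheaf `O(-2)` and `hA` of `A`, and of the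
proximity function `mS` of `D` relative to `S` (each is given up to bounded functions), the
inequality `hK(x) + mS(x) < C log⁺ hA(x) + d(x)` fails at infinitely many algebraic points `x` of
degree at most `r` over `k`, outside the support of `D`. -/
def Fails (k : Type u) [Field k] [NumberField k] (E : Finset k) (n r : ℕ) (S : Finset (Place k))
    (C : ℝ) : Prop :=
  ∀ hK hA mS : AlgebraicClosure k → ℝ,
    (∃ B : ℝ, ∀ x, |hK x - (-2) * height x| ≤ B) →
    (∃ B : ℝ, ∀ x, |hA x - n * height x| ≤ B) →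
    (∃ B : ℝ, ∀ x, (∀ a ∈ E, x ≠ algebraMap k (AlgebraicClosure k) a) →
      |mS x - prox S E x| ≤ B) →
    {x : AlgebraicClosure k | (∀ a ∈ E, x ≠ algebraMap k (AlgebraicClosure k) a) ∧
      degree x ≤ r ∧ ¬ (hK x + mS x < C * logPlus (hA x) + logDisc x)}.Infinite

section lemmas

variable {k : Type u} [Field k] [NumberField k]

/-- the proximity function on `k`-rational points. -/
noncomputable def prox₀ (S : Finset (Place k)) (E : Finset k) (x : k) : ℝ :=
  ∑ v ∈ S, (logPlus (nabs v x) + ∑ a ∈ E, logPlus (nabs v (x - a)⁻¹))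

/-- failure on `k`-rational points. -/
def Fails₀ (k : Type u) [Field k] [NumberField k] (E : Finset k) (n : ℕ) (S : Finset (Place k))
    (C : ℝ) : Prop :=
  ∀ hK hA mS : k → ℝ,
    (∃ B : ℝ, ∀ x, |hK x - (-2) * logHeight₁ x| ≤ B) →
    (∃ B : ℝ, ∀ x, |hA x - n * logHeight₁ x| ≤ B) →
    (∃ B : ℝ, ∀ x, x ∉ E → |mS x - prox₀ S E x| ≤ B) →
    {x : k | x ∉ E ∧
      ¬ (hK x + mS x < C * logPlus (hA x) + Real.log |(NumberField.discr k : ℝ)|)}.Infinite

lemma logPlus_nonneg (t : ℝ) : 0 ≤ logPlus t := Real.log_nonneg (le_max_left _ _)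

lemma logPlus_mono {s t : ℝ} (h : s ≤ t) : logPlus s ≤ logPlus t :=
  Real.log_le_log (lt_of_lt_of_le one_pos (le_max_left _ _)) (max_le_max le_rfl h)

lemma log_le_logPlus {t : ℝ} (ht : 0 < t) : Real.log t ≤ logPlus t :=
  Real.log_le_log ht (le_max_right _ _)

lemma logPlus_eq_posLog {t : ℝ} (ht : 0 ≤ t) : logPlus t = Real.posLog t :=
  (Real.posLog_eq_log_max_one ht).symm

lemma nabs_nonneg (v : Place k) (x : k) : 0 ≤ nabs v x := by
  rcases v with v | v
  · exact pow_nonneg (apply_nonneg _ _) _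
  · exact apply_nonneg _ _

lemma place_le_of_mem_pow (w : FinitePlace k) (m : ℕ) (x : 𝓞 k)
    (hx : x ∈ w.maximalIdeal.asIdeal ^ m) :
    w (x : k) ≤ ((Ideal.absNorm w.maximalIdeal.asIdeal : ℝ) ^ m)⁻¹ := by
  rw [← FinitePlace.norm_embedding_eq, FinitePlace.norm_embedding_int]
  rw [← HeightOneSpectrum.intValuation_le_pow_iff_mem] at hx
  have h1 := (WithZeroMulInt.toNNReal_strictMono
    (HeightOneSpectrum.one_lt_absNorm_nnreal w.maximalIdeal)).monotone hx
  have h2 : (WithZeroMulInt.toNNReal (HeightOneSpectrum.absNorm_ne_zero w.maximalIdeal))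
      (WithZero.exp (-(m:ℤ))) = ((Ideal.absNorm w.maximalIdeal.asIdeal : NNReal) ^ m)⁻¹ := by
    rw [WithZeroMulInt.toNNReal_neg_apply _ (by simp)]
    have h3 : (WithZero.unzero (show (WithZero.exp (-(m:ℤ)) : WithZero (Multiplicative ℤ)) ≠ 0 by simp))
        = Multiplicative.ofAdd (-(m:ℤ)) := by
      rw [← WithZero.coe_inj, WithZero.coe_unzero]
      rfl
    rw [h3]
    simp
  rw [h2] at h1
  exact_mod_cast h1

lemma exists_gen (w : FinitePlace k) : ∃ ϖ : 𝓞 k, w (ϖ : k) < 1 ∧ w (ϖ : k) ≠ 0 ∧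
    ∀ w' : FinitePlace k, w' ≠ w → w' (ϖ : k) = 1 := by
  classical
  set I := w.maximalIdeal.asIdeal with hI
  have hI0 : I ≠ ⊥ := w.maximalIdeal.ne_bot
  set h := Fintype.card (ClassGroup (𝓞 k)) with hh
  have hpos : 0 < h := Fintype.card_pos
  have hIm : I ∈ nonZeroDivisors (Ideal (𝓞 k)) := mem_nonZeroDivisors_of_ne_zero hI0
  have hIh : I ^ h ∈ nonZeroDivisors (Ideal (𝓞 k)) := pow_mem hIm h
  have h1 : ClassGroup.mk0 ⟨I ^ h, hIh⟩ = 1 := by
    have : (⟨I ^ h, hIh⟩ : nonZeroDivisors (Ideal (𝓞 k))) = ⟨I, hIm⟩ ^ h := rfl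
    rw [this, map_pow, hh, pow_card_eq_one]
  have h2 := (ClassGroup.mk0_eq_one_iff hIh).mp h1
  obtain ⟨ϖ, hϖ⟩ := h2.principal
  have hϖ' : I ^ h = Ideal.span {ϖ} := hϖ
  have hϖmem : ϖ ∈ I ^ h := by rw [hϖ']; exact Ideal.mem_span_singleton_self ϖ
  have hϖI : ϖ ∈ I := Ideal.pow_le_self hpos.ne' hϖmem
  refine ⟨ϖ, ?_, ?_, ?_⟩
  · rw [← FinitePlace.norm_embedding_eq]
    exact (FinitePlace.norm_lt_one_iff_mem k w.maximalIdeal ϖ).mpr hϖI
  · intro h0
    have h3 : (ϖ : k) = 0 := by simpa using h0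
    have h4 : ϖ = 0 := by exact_mod_cast h3
    rw [h4] at hϖ'
    simp only [Ideal.span_singleton_zero] at hϖ'
    exact pow_ne_zero h hI0 hϖ'
  · intro w' hw'
    rw [← FinitePlace.norm_embedding_eq]
    refine (FinitePlace.norm_eq_one_iff_notMem k w'.maximalIdeal ϖ).mpr ?_
    intro hmem
    apply hw'
    have h5 : I ^ h ≤ w'.maximalIdeal.asIdeal := by
      rw [hϖ', Ideal.span_singleton_le_iff_mem]; exact hmem
    have h6 : I ≤ w'.maximalIdeal.asIdeal := (w'.maximalIdeal.isPrime.pow_le_iff hpos.ne').mp h5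
    have h7 : I = w'.maximalIdeal.asIdeal :=
      (w.maximalIdeal.isMaximal).eq_of_le w'.maximalIdeal.isPrime.ne_top h6
    have h8 : w.maximalIdeal = w'.maximalIdeal := HeightOneSpectrum.ext h7
    exact (FinitePlace.maximalIdeal_injective h8).symm

lemma unit_place (w : FinitePlace k) (ε : (𝓞 k)ˣ) : w ((ε : 𝓞 k) : k) = 1 := by
  rw [← FinitePlace.norm_embedding_eq]
  refine (FinitePlace.norm_eq_one_iff_notMem k w.maximalIdeal _).mpr ?_
  intro hmem
  exact w.maximalIdeal.isPrime.ne_top (Ideal.eq_top_of_isUnit_mem _ hmem ε.isUnit)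

lemma fund_indep (a b : Fin (Units.rank k) → ℕ)
    (h : ∏ j, Units.fundSystem k j ^ a j = ∏ j, Units.fundSystem k j ^ b j) : a = b := by
  have h1 := Units.exist_unique_eq_mul_prod k (∏ j, Units.fundSystem k j ^ a j)
  obtain ⟨z, hz, huniq⟩ := h1
  have ha := huniq (1, fun j => (a j : ℤ)) (by simp)
  have hb := huniq (1, fun j => (b j : ℤ)) (by simp [h])
  have hab := ha.trans hb.symm
  simp only [Prod.mk.injEq, true_and] at hab
  funext j
  exact_mod_cast congrFun hab j

/-- the generators -/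
lemma exists_family (T : Finset (FinitePlace k)) :
    ∃ g : (Fin (Units.rank k) ⊕ T) → 𝓞 k,
      (∀ i, g i ≠ 0) ∧
      (∀ w : FinitePlace k, w ∉ T → ∀ i, w (g i : k) = 1) ∧
      (∀ a b : (Fin (Units.rank k) ⊕ T) → ℕ, ∏ i, g i ^ a i = ∏ i, g i ^ b i → a = b) := by
  classical
  choose p hp1 hp0 hp using fun w : FinitePlace k => exists_gen w
  refine ⟨Sum.elim (fun j => ((Units.fundSystem k j : (𝓞 k)ˣ) : 𝓞 k)) (fun t => p t), ?_, ?_, ?_⟩
  · rintro (j | t)
    · simp
    · intro h0
      apply hp0 t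
      have : p t = 0 := h0
      simp [this]
  · intro w hw
    rintro (j | t)
    · exact unit_place w _
    · refine hp t w ?_
      rintro rfl
      exact hw t.2
  · intro a b hab
    simp only [Fintype.prod_sum_type, Sum.elim_inl, Sum.elim_inr] at hab
    -- first the finite places
    have key : ∀ c : (Fin (Units.rank k) ⊕ T) → ℕ, ∀ t : T,
        (t : FinitePlace k) (((∏ j, ((Units.fundSystem k j : (𝓞 k)ˣ) : 𝓞 k) ^ c (Sum.inl j)) *
          ∏ t' : T, p t' ^ c (Sum.inr t') : 𝓞 k) : k) = (t : FinitePlace k) (p t : k) ^ c (Sum.inr t) := by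
      intro c t
      push_cast
      rw [map_mul, map_prod, map_prod]
      have h1 : ∏ j, (t : FinitePlace k) ((((Units.fundSystem k j : (𝓞 k)ˣ) : 𝓞 k) : k) ^ c (Sum.inl j)) = 1 := by
        apply Finset.prod_eq_one
        intro j _
        rw [map_pow, unit_place, one_pow]
      rw [h1, one_mul, Finset.prod_eq_single t]
      · rw [map_pow]
      · intro t' _ ht'
        rw [map_pow, hp t' t (fun h => ht' (Subtype.ext h.symm)), one_pow]
      · simp
    have hT : ∀ t : T, a (Sum.inr t) = b (Sum.inr t) := by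
      intro t
      have h1 := key a t
      have h2 := key b t
      rw [hab, h2] at h1
      have h3 : 0 < (t : FinitePlace k) (p t : k) :=
        lt_of_le_of_ne (apply_nonneg _ _) (Ne.symm (hp0 t))
      exact (pow_right_injective₀ h3 (hp1 t).ne h1).symm
    have hprod : ∏ t' : T, p t' ^ a (Sum.inr t') = ∏ t' : T, p t' ^ b (Sum.inr t') := by
      refine Finset.prod_congr rfl fun t _ => by rw [hT t]
    rw [hprod] at hab
    have hne : ∏ t' : T, p t' ^ b (Sum.inr t') ≠ 0 := by
      rw [Finset.prod_ne_zero_iff]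
      intro t _
      apply pow_ne_zero
      intro h0
      apply hp0 t
      simp [h0]
    have hu := mul_right_cancel₀ hne hab
    have hu' : ∏ j, Units.fundSystem k j ^ a (Sum.inl j) = ∏ j, Units.fundSystem k j ^ b (Sum.inl j) := by
      apply Units.ext
      push_cast
      exact hu
    have hF := fund_indep (fun j => a (Sum.inl j)) (fun j => b (Sum.inl j)) hu'
    funext i
    rcases i with (j | t)
    · exact congrFun hF j
    · exact hT t

lemma approx (T : Finset (FinitePlace k)) (w₀ : FinitePlace k) (hw₀ : w₀ ∉ T)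
    (hρ : 0 < Units.rank k + T.card) :
    ∃ L : ℝ, 0 ≤ L ∧ ∀ m : ℕ, ∃ u : k, u ≠ 0 ∧ u ≠ 1 ∧
      w₀ (u - 1) ≤ ((Ideal.absNorm w₀.maximalIdeal.asIdeal : ℝ) ^ m)⁻¹ ∧
      (∀ w : FinitePlace k, w ∉ T → w u = 1) ∧
      logHeight₁ u ≤ L * (Ideal.absNorm w₀.maximalIdeal.asIdeal : ℝ) ^
        ((m : ℝ) / ((Units.rank k + T.card : ℕ) : ℝ)) := by
  classical
  obtain ⟨g, hg0, hg1, hgind⟩ := exists_family T
  set N : ℕ := Ideal.absNorm w₀.maximalIdeal.asIdeal with hN
  have hN1 : 1 < N := HeightOneSpectrum.one_lt_absNorm w₀.maximalIdeal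
  set ρ : ℕ := Units.rank k + T.card with hρdef
  refine ⟨∑ i, logHeight₁ (g i : k), Finset.sum_nonneg fun i _ => zero_le_logHeight₁ _, ?_⟩
  intro m
  set X : ℝ := (N : ℝ) ^ ((m : ℝ) / (ρ : ℝ)) with hX
  have hN0 : (0:ℝ) < N := by exact_mod_cast (by omega : 0 < N)
  have hXpos : 0 < X := Real.rpow_pos_of_pos hN0 _
  set A : ℕ := ⌊X⌋₊ with hA
  have hAX : (A : ℝ) ≤ X := Nat.floor_le hXpos.le
  have hXA : X < A + 1 := Nat.lt_floor_add_one X
  have hXρ : X ^ ρ = (N : ℝ) ^ m := by
    rw [hX, ← Real.rpow_natCast, ← Real.rpow_mul hN0.le, div_mul_cancel₀, Real.rpow_natCast]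
    exact_mod_cast hρ.ne'
  have hcard : N ^ m < (A + 1) ^ ρ := by
    have : ((N ^ m : ℕ) : ℝ) < (((A + 1) ^ ρ : ℕ) : ℝ) := by
      push_cast
      rw [← hXρ]
      exact pow_lt_pow_left₀ hXA hXpos.le hρ.ne'
    exact_mod_cast this
  -- pigeonhole
  set I : Ideal (𝓞 k) := w₀.maximalIdeal.asIdeal ^ m with hI
  have hInorm : Nat.card (𝓞 k ⧸ I) = N ^ m := by
    rw [← Submodule.cardQuot_apply, ← Ideal.absNorm_apply, hI, map_pow]
  have : Finite (𝓞 k ⧸ I) := by
    apply Nat.finite_of_card_ne_zero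
    rw [hInorm]
    exact pow_ne_zero _ (by omega)
  have : Fintype (𝓞 k ⧸ I) := Fintype.ofFinite _
  let f : ((Fin (Units.rank k) ⊕ T) → Fin (A + 1)) → 𝓞 k ⧸ I :=
    fun a => Ideal.Quotient.mk I (∏ i, g i ^ (a i : ℕ))
  have hlt : Fintype.card (𝓞 k ⧸ I) < Fintype.card ((Fin (Units.rank k) ⊕ T) → Fin (A + 1)) := by
    rw [← Nat.card_eq_fintype_card, hInorm]
    simp only [Fintype.card_fun, Fintype.card_sum, Fintype.card_fin, Fintype.card_coe]
    exact hcard
  obtain ⟨a, b, hab, hfab⟩ := Fintype.exists_ne_map_eq_of_card_lt f hlt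
  have hsub : (∏ i, g i ^ (a i : ℕ)) - (∏ i, g i ^ (b i : ℕ)) ∈ I := by
    rw [← Ideal.Quotient.eq]
    exact hfab
  set P : (((Fin (Units.rank k) ⊕ T)) → Fin (A + 1)) → 𝓞 k := fun a => ∏ i, g i ^ (a i : ℕ) with hP
  have hPne : ∀ a, (P a : k) ≠ 0 := by
    intro a
    have : P a ≠ 0 := by
      rw [hP]
      simp only
      rw [Finset.prod_ne_zero_iff]
      intro i _
      exact pow_ne_zero _ (hg0 i)
    simpa using this
  have hPw : ∀ a, ∀ w : FinitePlace k, w ∉ T → w (P a : k) = 1 := by
    intro a w hw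
    rw [hP]
    push_cast
    rw [map_prod]
    apply Finset.prod_eq_one
    intro i _
    rw [map_pow, hg1 w hw i, one_pow]
  refine ⟨(P a : k) / (P b : k), div_ne_zero (hPne a) (hPne b), ?_, ?_, ?_, ?_⟩
  · intro h1
    rw [div_eq_one_iff_eq (hPne b)] at h1
    have h2 : P a = P b := by exact_mod_cast h1
    have h3 := hgind (fun i => (a i : ℕ)) (fun i => (b i : ℕ)) h2
    apply hab
    funext i
    exact Fin.ext (congrFun h3 i)
  · have h1 : (P a : k) / (P b : k) - 1 = ((P a - P b : 𝓞 k) : k) / (P b : k) := by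
      push_cast
      rw [sub_div, div_self (hPne b)]
    rw [h1, map_div₀, hPw b w₀ hw₀, div_one]
    exact place_le_of_mem_pow w₀ m _ hsub
  · intro w hw
    rw [map_div₀, hPw a w hw, hPw b w hw, div_one]
  · have h1 : (P a : k) / (P b : k) = ∏ i, (g i : k) ^ ((a i : ℤ) - (b i : ℤ)) := by
      rw [hP]
      push_cast
      rw [← Finset.prod_div_distrib]
      refine Finset.prod_congr rfl fun i _ => ?_
      have hgi : (g i : k) ≠ 0 := by simpa using hg0 i
      rw [zpow_sub₀ hgi, zpow_natCast, zpow_natCast]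
    rw [h1]
    refine (logHeight₁_prod_le _ _).trans ?_
    rw [Finset.sum_mul]
    refine Finset.sum_le_sum fun i _ => ?_
    rw [logHeight₁_zpow, mul_comm]
    refine mul_le_mul_of_nonneg_left ?_ (zero_le_logHeight₁ _)
    refine le_trans ?_ hAX
    have ha := (a i).2
    have hb := (b i).2
    have : ((a i : ℤ) - (b i : ℤ)).natAbs ≤ A := by omega
    exact_mod_cast this

lemma sum_logPlus_nabs (S : Finset (Place k)) (hS : ∀ v : InfinitePlace k, Sum.inl v ∈ S) (x : k)
    (hx : ∀ w : FinitePlace k, Sum.inr w ∉ S → w x = 1) :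
    ∑ v ∈ S, logPlus (nabs v x) = logHeight₁ x := by
  classical
  have hSS : S = S.toLeft.disjSum S.toRight := by
    ext v
    rcases v with v | v <;> simp
  have hL : S.toLeft = Finset.univ := by
    ext v
    simp [hS v]
  rw [hSS, Finset.sum_disjSum, hL, NumberField.logHeight₁_eq]
  congr 1
  · refine Finset.sum_congr rfl fun v _ => ?_
    simp only [nabs, Sum.elim_inl]
    rw [logPlus_eq_posLog (pow_nonneg (apply_nonneg _ _) _), Real.posLog_pow]
  · rw [finsum_eq_sum_of_support_subset (s := S.toRight)]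
    · refine Finset.sum_congr rfl fun v _ => ?_
      simp only [nabs, Sum.elim_inr]
      exact logPlus_eq_posLog (apply_nonneg _ _)
    · intro w hw
      simp only [Function.mem_support] at hw
      by_contra hw2
      apply hw
      have : Sum.inr w ∉ S := by simpa using hw2
      rw [hx w this]
      simp

lemma infinite_finitePlace : Infinite (FinitePlace k) := by
  have key : ∀ p : Nat.Primes, ∃ v : HeightOneSpectrum (𝓞 k), ((p : ℕ) : 𝓞 k) ∈ v.asIdeal := by
    intro p
    have hnu : ¬ IsUnit ((p : ℕ) : 𝓞 k) := by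
      intro h
      have h1 := h.map (Algebra.norm ℤ)
      have h2 : ((p : ℕ) : 𝓞 k) = algebraMap ℤ (𝓞 k) (p : ℤ) := by simp
      rw [h2, Algebra.norm_algebraMap] at h1
      have h3 : IsUnit ((p : ℕ) : ℤ) := by
        refine (isUnit_pow_iff ?_).mp h1
        rw [RingOfIntegers.rank]
        exact Module.finrank_pos.ne'
      rw [Int.ofNat_isUnit] at h3
      exact p.2.one_lt.ne' (Nat.isUnit_iff.mp h3)
    obtain ⟨M, hM, hpM⟩ := exists_max_ideal_of_mem_nonunits hnu
    have hMbot : M ≠ ⊥ := by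
      rintro rfl
      have h0 : ((p : ℕ) : 𝓞 k) = 0 := by simpa using hpM
      have : (p : ℕ) = 0 := by exact_mod_cast h0
      exact p.2.ne_zero this
    exact ⟨⟨M, hM.isPrime, hMbot⟩, hpM⟩
  choose v hv using key
  refine Infinite.of_injective (fun p : Nat.Primes => FinitePlace.mk (v p)) ?_
  intro p q hpq
  have h1 : v p = v q := FinitePlace.mk_eq_iff.mp hpq
  by_contra hne
  have hcop : IsCoprime ((p : ℕ) : ℤ) ((q : ℕ) : ℤ) := by
    rw [Nat.isCoprime_iff_coprime, Nat.coprime_primes p.2 q.2]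
    intro h
    exact hne (Subtype.ext h)
  obtain ⟨a, b, hab⟩ := hcop
  have h2 : (1 : 𝓞 k) ∈ (v p).asIdeal := by
    have h3 : ((a * ((p : ℕ) : ℤ) + b * ((q : ℕ) : ℤ) : ℤ) : 𝓞 k) = 1 := by rw [hab]; simp
    rw [← h3]
    push_cast
    refine Ideal.add_mem _ (Ideal.mul_mem_left _ _ (hv p)) (Ideal.mul_mem_left _ _ ?_)
    rw [h1]
    exact hv q
  exact (v p).isPrime.ne_top ((Ideal.eq_top_iff_one _).mpr h2)

lemma fails_of_lt (E : Finset k) (h0 : (0 : k) ∈ E) (h1 : (1 : k) ∈ E) (n : ℕ)
    (S : Finset (Place k)) (hS : ∀ v : InfinitePlace k, Sum.inl v ∈ S)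
    (hSf : ∃ v : FinitePlace k, Sum.inr v ∈ S) (C : ℝ) (hC : 0 < C) (hCS : C < (S.card : ℝ) - 2) :
    Fails₀ k E n S C := by
  classical
  rintro hK hA mS ⟨B₁, hB₁⟩ ⟨B₂, hB₂⟩ ⟨B₃, hB₃⟩
  obtain ⟨w₀, hw₀S⟩ := hSf
  set T : Finset (FinitePlace k) := S.toRight.erase w₀ with hT
  have hw₀T : w₀ ∉ T := by simp [hT]
  have hnotS : ∀ w : FinitePlace k, Sum.inr w ∉ S → w ∉ T := by
    intro w hw hwT
    rw [hT, Finset.mem_erase, Finset.mem_toRight] at hwT
    exact hw hwT.2
  have hL : S.toLeft = Finset.univ := by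
    ext v
    simp [hS v]
  have hcard : S.card = Units.rank k + T.card + 2 := by
    have h2 := Finset.card_toLeft_add_card_toRight (u := S)
    have h3 : T.card = S.toRight.card - 1 := by
      rw [hT, Finset.card_erase_of_mem]
      simpa using hw₀S
    have h4 : 0 < S.toRight.card := Finset.card_pos.mpr ⟨w₀, by simpa using hw₀S⟩
    have h5 : S.toLeft.card = Units.rank k + 1 := by
      rw [hL, Finset.card_univ, Units.rank]
      have : 0 < Fintype.card (InfinitePlace k) := Fintype.card_pos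
      omega
    omega
  set ρ : ℕ := Units.rank k + T.card with hρdef
  have hCρ : C < (ρ : ℝ) := by
    rw [hcard] at hCS
    push_cast at hCS
    linarith
  have hρ0 : 0 < ρ := by
    have : (0 : ℝ) < (ρ : ℝ) := hC.trans hCρ
    exact_mod_cast this
  obtain ⟨L, hL0, happ⟩ := approx T w₀ hw₀T hρ0
  set N : ℕ := Ideal.absNorm w₀.maximalIdeal.asIdeal with hN
  have hN1 : 1 < N := HeightOneSpectrum.one_lt_absNorm w₀.maximalIdeal
  have hN1' : (1 : ℝ) < N := by exact_mod_cast hN1
  have hN0 : (0 : ℝ) < N := by linarith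
  have hlogN : 0 < Real.log N := Real.log_pos hN1'
  have hρ0' : (0 : ℝ) < (ρ : ℝ) := by exact_mod_cast hρ0
  intro hfin
  -- a lower bound for `w₀ (x - 1)` on the finite set of the exceptional points
  set F : Set k := {x : k | x ∉ E ∧
      ¬ (hK x + mS x < C * logPlus (hA x) + Real.log |(NumberField.discr k : ℝ)|)} with hF
  have hfin2 : ((F ∪ (E : Set k)) \ {1}).Finite := (hfin.union E.finite_toSet).sdiff
  obtain ⟨δ, hδ, hδF⟩ : ∃ δ : ℝ, 0 < δ ∧ ∀ x ∈ (F ∪ (E : Set k)) \ {1}, δ ≤ w₀ (x - 1) := by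
    have hne : ((insert 1 ((fun x => w₀ (x - 1)) '' ((F ∪ (E : Set k)) \ {1})) : Set ℝ)).Nonempty :=
      ⟨1, Set.mem_insert _ _⟩
    obtain ⟨δ, hδmem, hδmin⟩ := Set.exists_min_image _ (fun x : ℝ => x)
      ((hfin2.image (fun x => w₀ (x - 1))).insert 1) hne
    refine ⟨δ, ?_, fun x hx => hδmin _ (Set.mem_insert_of_mem _ ⟨x, hx, rfl⟩)⟩
    rcases hδmem with rfl | ⟨x, hx, rfl⟩
    · exact one_pos
    · refine FinitePlace.pos_iff.mpr ?_
      rw [sub_ne_zero]
      exact fun h => hx.2 h
  set c : ℝ := n * L + |B₂| + 1 with hc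
  have hc1 : 1 ≤ c := by
    have : 0 ≤ (n : ℝ) * L := mul_nonneg (Nat.cast_nonneg _) hL0
    have := abs_nonneg B₂
    rw [hc]; linarith
  -- choose `m` large
  have hev1 : ∀ᶠ m : ℕ in Filter.atTop, ((N : ℝ) ^ m)⁻¹ < δ := by
    have := (tendsto_inv_atTop_zero.comp (tendsto_pow_atTop_atTop_of_one_lt hN1'))
    exact this.eventually_lt_const hδ
  have hev2 : ∀ᶠ m : ℕ in Filter.atTop,
      (C * Real.log c + Real.log |(NumberField.discr k : ℝ)| + B₁ + B₃) ≤
        (Real.log N * (1 - C / ρ)) * m := by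
    have hpos : 0 < Real.log N * (1 - C / ρ) := by
      apply mul_pos hlogN
      rw [sub_pos, div_lt_one hρ0']
      exact hCρ
    have := (tendsto_natCast_atTop_atTop (R := ℝ)).const_mul_atTop hpos
    exact this.eventually_ge_atTop _
  obtain ⟨m, hm1, hm2⟩ := (hev1.and hev2).exists
  obtain ⟨u, hu0, hu1, huw, huT, huh⟩ := happ m
  have huFE : u ∉ F ∪ (E : Set k) := by
    intro hu
    have := hδF u ⟨hu, hu1⟩
    linarith
  have huE : u ∉ E := fun h => huFE (Or.inr h)
  have huF : u ∉ F := fun h => huFE (Or.inl h)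
  apply huF
  refine ⟨huE, ?_⟩
  rw [not_lt]
  -- lower bound for the left-hand side
  have hsum1 : ∑ v ∈ S, logPlus (nabs v u) = logHeight₁ u :=
    sum_logPlus_nabs S hS u fun w hw => huT w (hnotS w hw)
  have hsum2 : ∑ v ∈ S, logPlus (nabs v (u - 0)⁻¹) = logHeight₁ u := by
    rw [sub_zero, ← logHeight₁_inv]
    refine sum_logPlus_nabs S hS u⁻¹ fun w hw => ?_
    rw [map_inv₀, huT w (hnotS w hw), inv_one]
  have hsum3 : m * Real.log N ≤ ∑ v ∈ S, logPlus (nabs v (u - 1)⁻¹) := by
    refine le_trans ?_ (Finset.single_le_sum (fun v _ => logPlus_nonneg _) hw₀S)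
    simp only [nabs, Sum.elim_inr]
    have hpos : 0 < w₀ (u - 1) := FinitePlace.pos_iff.mpr (sub_ne_zero.mpr hu1)
    rw [map_inv₀]
    refine le_trans ?_ (log_le_logPlus (inv_pos.mpr hpos))
    rw [← Real.log_pow]
    apply Real.log_le_log (by positivity)
    rw [le_inv_comm₀ (by positivity) hpos]
    exact huw
  have hprox : 2 * logHeight₁ u + m * Real.log N ≤ prox₀ S E u := by
    have hE2 : ({0, 1} : Finset k) ⊆ E := by
      intro a ha
      simp only [Finset.mem_insert, Finset.mem_singleton] at ha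
      rcases ha with rfl | rfl
      · exact h0
      · exact h1
    have : ∑ v ∈ S, (logPlus (nabs v u) + ∑ a ∈ ({0, 1} : Finset k), logPlus (nabs v (u - a)⁻¹))
        ≤ prox₀ S E u := by
      unfold prox₀
      refine Finset.sum_le_sum fun v _ => ?_
      refine add_le_add le_rfl ?_
      exact Finset.sum_le_sum_of_subset_of_nonneg hE2 fun _ _ _ => logPlus_nonneg _
    refine le_trans ?_ this
    have h01 : (0 : k) ≠ 1 := zero_ne_one
    simp only [Finset.sum_pair h01]
    rw [Finset.sum_add_distrib, Finset.sum_add_distrib, hsum1, hsum2]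
    linarith
  have e1 := (abs_le.mp (hB₁ u)).1
  have e2 := (abs_le.mp (hB₂ u)).2
  have e3 := (abs_le.mp (hB₃ u huE)).1
  -- upper bound for the right-hand side
  set X : ℝ := (N : ℝ) ^ ((m : ℝ) / (ρ : ℝ)) with hX
  have hX1 : 1 ≤ X := Real.one_le_rpow hN1'.le (by positivity)
  have hAu : hA u ≤ c * X := by
    have h2 : (n : ℝ) * logHeight₁ u ≤ n * (L * X) :=
      mul_le_mul_of_nonneg_left huh (Nat.cast_nonneg _)
    have h3 : B₂ ≤ (|B₂| + 1) * X := by
      have h4 : |B₂| + 1 ≤ (|B₂| + 1) * X :=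
        le_mul_of_one_le_right (by positivity) hX1
      have := le_abs_self B₂
      linarith
    calc hA u ≤ n * logHeight₁ u + B₂ := by linarith
      _ ≤ n * (L * X) + (|B₂| + 1) * X := add_le_add h2 h3
      _ = c * X := by rw [hc]; ring
  have hlogA : logPlus (hA u) ≤ Real.log c + (m : ℝ) / ρ * Real.log N := by
    have h2 : logPlus (hA u) ≤ logPlus (c * X) := logPlus_mono hAu
    have h3 : logPlus (c * X) = Real.log (c * X) := by
      unfold logPlus
      rw [max_eq_right]
      calc (1 : ℝ) = 1 * 1 := by ring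
        _ ≤ c * X := mul_le_mul hc1 hX1 zero_le_one (by linarith)
    rw [h3, Real.log_mul (by positivity) (by positivity), hX, Real.log_rpow hN0] at h2
    exact h2
  have hR : C * logPlus (hA u) ≤ C * (Real.log c + (m : ℝ) / ρ * Real.log N) :=
    mul_le_mul_of_nonneg_left hlogA hC.le
  have hfinal : C * (Real.log c + (m : ℝ) / ρ * Real.log N) + Real.log |(NumberField.discr k : ℝ)|
      ≤ m * Real.log N - B₁ - B₃ := by
    have h2 : (Real.log N * (1 - C / ρ)) * m = m * Real.log N - C * ((m : ℝ) / ρ * Real.log N) := by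
      field_simp
    rw [h2] at hm2
    linarith
  linarith

end lemmas

section iso

set_option linter.unusedSectionVars false

variable {k L : Type u} [Field k] [NumberField k] [Field L] [NumberField L] [Algebra k L]

lemma bij_int (hb : Function.Bijective (algebraMap k L)) :
    Function.Bijective (algebraMap (𝓞 k) (𝓞 L)) := by
  constructor
  · intro a b hab
    have h1 : ((algebraMap (𝓞 k) (𝓞 L) a : 𝓞 L) : L) = ((algebraMap (𝓞 k) (𝓞 L) b : 𝓞 L) : L) := by
      rw [hab]
    have h2 : algebraMap k L (a : k) = algebraMap k L (b : k) := h1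
    exact_mod_cast hb.1 h2
  · intro y
    obtain ⟨x, hx⟩ := hb.2 (y : L)
    have hxint : IsIntegral ℤ x := by
      have h1 : IsIntegral ℤ (algebraMap k L x) := by
        rw [hx]; exact y.isIntegral_coe
      exact (isIntegral_algebraMap_iff hb.1).mp h1
    refine ⟨⟨x, hxint⟩, ?_⟩
    apply RingOfIntegers.ext
    exact hx

lemma finite_place_eq (hb : Function.Bijective (algebraMap k L)) (v : FinitePlace k)
    (w : FinitePlace L) (h : w.maximalIdeal.asIdeal.LiesOver v.maximalIdeal.asIdeal) (x : k) :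
    w (algebraMap k L x) = v x := by
  have hbi := bij_int hb
  set e : 𝓞 k ≃+* 𝓞 L := RingEquiv.ofBijective (algebraMap (𝓞 k) (𝓞 L)) hbi with he
  set P := v.maximalIdeal.asIdeal with hP
  set Q := w.maximalIdeal.asIdeal with hQ
  have hPQ : P = Q.comap (algebraMap (𝓞 k) (𝓞 L)) := h.over
  have hQP : Q = Ideal.map (e : 𝓞 k →+* 𝓞 L) P := by
    rw [hPQ]
    exact (Ideal.map_comap_of_surjective (algebraMap (𝓞 k) (𝓞 L)) hbi.2 Q).symm
  have hnorm : Ideal.absNorm Q = Ideal.absNorm P := by
    rw [Ideal.absNorm_apply, Ideal.absNorm_apply, Submodule.cardQuot_apply, Submodule.cardQuot_apply]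
    exact (Nat.card_congr (Ideal.quotientEquiv P Q e hQP).toEquiv).symm
  have hint : ∀ a : 𝓞 k, w (algebraMap k L (a : k)) = v (a : k) := by
    intro a
    by_cases ha : a = 0
    · subst ha
      simp
    have hea : e a ≠ 0 := by
      rw [Ne, map_eq_zero_iff e e.injective]
      exact ha
    have hcoe : algebraMap k L (a : k) = ((e a : 𝓞 L) : L) := rfl
    have h1 := FinitePlace.apply_mul_absNorm_pow_eq_one v ha
    have h2 := FinitePlace.apply_mul_absNorm_pow_eq_one w hea
    have hmult : multiplicity Q (Ideal.span {e a}) = multiplicity P (Ideal.span {a}) := by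
      apply multiplicity_eq_of_emultiplicity_eq
      rw [emultiplicity_eq_emultiplicity_iff]
      intro n
      rw [Ideal.dvd_span_singleton, Ideal.dvd_span_singleton, hQP, ← Ideal.map_pow]
      rw [Ideal.mem_map_iff_of_surjective (e : 𝓞 k →+* 𝓞 L) e.surjective]
      constructor
      · rintro ⟨x, hx, hxe⟩
        have : x = a := e.injective hxe
        exact this ▸ hx
      · intro hx
        exact ⟨a, hx, rfl⟩
    rw [← hP] at h1
    rw [← hQ, hmult, hnorm] at h2
    rw [hcoe]
    have hne : ((Ideal.absNorm P : ℝ)) ^ multiplicity P (Ideal.span {a}) ≠ 0 := by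
      intro h0
      rw [h0, mul_zero] at h1
      exact zero_ne_one h1
    exact mul_right_cancel₀ hne (h2.trans h1.symm)
  obtain ⟨a, b, hb0, rfl⟩ := IsFractionRing.div_surjective (A := 𝓞 k) x
  have ha' := hint a
  have hb' := hint b
  simp only [map_div₀]
  rw [ha', hb']


lemma exists_finite_above (hb : Function.Bijective (algebraMap k L)) (w : FinitePlace L) :
    ∃ v : FinitePlace k, w.maximalIdeal.asIdeal.LiesOver v.maximalIdeal.asIdeal := by
  have hbi := bij_int hb
  refine ⟨FinitePlace.mk (HeightOneSpectrum.under (𝓞 k) w.maximalIdeal), ?_⟩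
  rw [FinitePlace.maximalIdeal_mk]
  exact ⟨rfl⟩

lemma exists_finite_below (hb : Function.Bijective (algebraMap k L)) (v : FinitePlace k) :
    ∃ w : FinitePlace L, w.maximalIdeal.asIdeal.LiesOver v.maximalIdeal.asIdeal := by
  have hbi := bij_int hb
  set e : 𝓞 k ≃+* 𝓞 L := RingEquiv.ofBijective (algebraMap (𝓞 k) (𝓞 L)) hbi with he
  let Q : HeightOneSpectrum (𝓞 L) :=
    HeightOneSpectrum.comap (e.symm : 𝓞 L →+* 𝓞 k) e.symm.surjective v.maximalIdeal
  refine ⟨FinitePlace.mk Q, ?_⟩
  rw [FinitePlace.maximalIdeal_mk]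
  constructor
  ext a
  change a ∈ v.maximalIdeal.asIdeal ↔ e.symm (algebraMap (𝓞 k) (𝓞 L) a) ∈ v.maximalIdeal.asIdeal
  have : e.symm (algebraMap (𝓞 k) (𝓞 L) a) = a := e.symm_apply_apply a
  rw [this]

lemma finite_above_unique (hb : Function.Bijective (algebraMap k L)) (v : FinitePlace k)
    (w w' : FinitePlace L) (h : w.maximalIdeal.asIdeal.LiesOver v.maximalIdeal.asIdeal)
    (h' : w'.maximalIdeal.asIdeal.LiesOver v.maximalIdeal.asIdeal) : w = w' := by
  apply DFunLike.ext
  intro y
  obtain ⟨x, rfl⟩ := hb.2 y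
  rw [finite_place_eq hb v w h, finite_place_eq hb v w' h']

lemma finite_below_unique (v v' : FinitePlace k)
    (w : FinitePlace L) (h : w.maximalIdeal.asIdeal.LiesOver v.maximalIdeal.asIdeal)
    (h' : w.maximalIdeal.asIdeal.LiesOver v'.maximalIdeal.asIdeal) : v = v' := by
  apply FinitePlace.maximalIdeal_injective
  apply HeightOneSpectrum.ext
  exact h.over.trans h'.over.symm

/-- the bijection of the places. -/
lemma exists_placeEquiv (hb : Function.Bijective (algebraMap k L)) :
    ∃ (φ : InfinitePlace k ≃ InfinitePlace L) (ψ : FinitePlace k ≃ FinitePlace L),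
      (∀ v w, w.comap (algebraMap k L) = v ↔ w = φ v) ∧
      (∀ v w, w.maximalIdeal.asIdeal.LiesOver v.maximalIdeal.asIdeal ↔ w = ψ v) ∧
      (∀ v, (φ v).mult = v.mult) ∧
      (∀ v x, φ v (algebraMap k L x) = v x) ∧
      (∀ v x, ψ v (algebraMap k L x) = v x) := by
  classical
  set e : k ≃+* L := RingEquiv.ofBijective (algebraMap k L) hb with he
  choose ψ hψ using exists_finite_below hb
  choose ψ' hψ' using exists_finite_above hb
  let φ : InfinitePlace k ≃ InfinitePlace L :=
    { toFun := fun v => v.comap (e.symm : L →+* k)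
      invFun := fun w => w.comap (e : k →+* L)
      left_inv := by
        intro v
        change (v.comap (e.symm : L →+* k)).comap (e : k →+* L) = v
        rw [← InfinitePlace.comap_comp]
        have : (e.symm : L →+* k).comp (e : k →+* L) = RingHom.id k := by
          ext x; simp
        rw [this, InfinitePlace.comap_id]
      right_inv := by
        intro w
        change (w.comap (e : k →+* L)).comap (e.symm : L →+* k) = w
        rw [← InfinitePlace.comap_comp]
        have : (e : k →+* L).comp (e.symm : L →+* k) = RingHom.id L := by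
          ext x; simp
        rw [this, InfinitePlace.comap_id] }
  let Ψ : FinitePlace k ≃ FinitePlace L :=
    { toFun := ψ
      invFun := ψ'
      left_inv := fun v => finite_below_unique _ _ (ψ v) (hψ' (ψ v)) (hψ v)
      right_inv := fun w => finite_above_unique hb (ψ' w) _ _ (hψ (ψ' w)) (hψ' w) }
  refine ⟨φ, Ψ, ?_, ?_, ?_, ?_, ?_⟩
  · intro v w
    constructor
    · intro h
      have : φ.symm w = v := h
      rw [← this, Equiv.apply_symm_apply]
    · rintro rfl
      exact φ.symm_apply_apply v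
  · intro v w
    constructor
    · intro h
      exact finite_above_unique hb v _ _ h (hψ v)
    · rintro rfl
      exact hψ v
  · intro v
    have h1 : (φ v).IsReal ↔ v.IsReal := InfinitePlace.isReal_comap_iff e.symm
    unfold InfinitePlace.mult
    simp only [h1]
  · intro v x
    change (v.comap (e.symm : L →+* k)) (algebraMap k L x) = v x
    rw [InfinitePlace.comap_apply]
    congr 1
    exact e.symm_apply_apply x
  · intro v x
    exact finite_place_eq hb v _ (hψ v) x

lemma logHeight_algebraMap (hb : Function.Bijective (algebraMap k L)) (x : k) :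
    logHeight₁ (algebraMap k L x) = logHeight₁ x := by
  obtain ⟨φ, ψ, _, _, hmult, hφ, hψ⟩ := exists_placeEquiv hb
  rw [NumberField.logHeight₁_eq, NumberField.logHeight₁_eq]
  congr 1
  · rw [← φ.sum_comp]
    refine Finset.sum_congr rfl fun v _ => ?_
    rw [hmult, hφ]
  · rw [← finsum_comp_equiv ψ]
    refine finsum_congr fun v => ?_
    rw [hψ]

lemma finsum_weil (hb : Function.Bijective (algebraMap k L)) (S : Finset (Place k))
    (E : Finset k) (u : k) :
    ∑ᶠ w ∈ {w : Place L | ∃ v ∈ S, Above v w}, weil E w (algebraMap k L u) = prox₀ S E u := by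
  classical
  obtain ⟨φ, ψ, hφa, hψa, hmult, hφ, hψ⟩ := exists_placeEquiv hb
  let Φ : Place k ≃ Place L := Equiv.sumCongr φ ψ
  have hset : {w : Place L | ∃ v ∈ S, Above v w} = Φ '' (S : Set (Place k)) := by
    ext w
    constructor
    · rintro ⟨v, hv, (⟨v', w', rfl, rfl, h⟩ | ⟨v', w', rfl, rfl, h⟩)⟩
      · refine ⟨Sum.inl v', hv, ?_⟩
        rw [(hφa v' w').mp h]; rfl
      · refine ⟨Sum.inr v', hv, ?_⟩
        rw [(hψa v' w').mp h]; rfl
    · rintro ⟨v, hv, rfl⟩
      refine ⟨v, hv, ?_⟩
      rcases v with v | v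
      · exact Or.inl ⟨v, φ v, rfl, rfl, (hφa v _).mpr rfl⟩
      · exact Or.inr ⟨v, ψ v, rfl, rfl, (hψa v _).mpr rfl⟩
  have hnabs : ∀ (v : Place k) (x : k), nabs (Φ v) (algebraMap k L x) = nabs v x := by
    intro v x
    rcases v with v | v
    · change (φ v) (algebraMap k L x) ^ (φ v).mult = v x ^ v.mult
      rw [hφ, hmult]
    · exact hψ v x
  rw [hset, finsum_mem_image (Φ.injective.injOn), finsum_mem_coe_finset]
  unfold prox₀
  refine Finset.sum_congr rfl fun v _ => ?_
  unfold weil
  rw [hnabs]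
  congr 1
  refine Finset.sum_congr rfl fun a _ => ?_
  rw [← map_sub, ← map_inv₀, hnabs]

end iso

section transfer

set_option linter.unusedSectionVars false

variable {k : Type u} [Field k] [NumberField k]

lemma adjoin_bij (u : k) :
    Function.Bijective (algebraMap k k⟮(algebraMap k (AlgebraicClosure k) u)⟯) := by
  refine ⟨(algebraMap k _).injective, ?_⟩
  rintro ⟨y, hy⟩
  have h1 : k⟮(algebraMap k (AlgebraicClosure k) u)⟯ = ⊥ := by
    rw [IntermediateField.adjoin_simple_eq_bot_iff]
    exact IntermediateField.algebraMap_mem _ u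
  rw [h1, IntermediateField.mem_bot] at hy
  obtain ⟨z, hz⟩ := hy
  exact ⟨z, Subtype.ext hz⟩

lemma degree_algebraMap (u : k) : degree (algebraMap k (AlgebraicClosure k) u) = 1 := by
  unfold degree
  rw [IntermediateField.finrank_eq_one_iff, IntermediateField.adjoin_simple_eq_bot_iff]
  exact IntermediateField.algebraMap_mem _ u

lemma gen_algebraMap (u : k) :
    IntermediateField.AdjoinSimple.gen k (algebraMap k (AlgebraicClosure k) u) =
      algebraMap k k⟮(algebraMap k (AlgebraicClosure k) u)⟯ u := by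
  apply Subtype.ext
  rfl

lemma height_algebraMap (u : k) :
    height (algebraMap k (AlgebraicClosure k) u) = logHeight₁ u := by
  unfold height
  rw [degree_algebraMap, gen_algebraMap, logHeight_algebraMap (adjoin_bij u)]
  simp

lemma logDisc_algebraMap (u : k) :
    logDisc (algebraMap k (AlgebraicClosure k) u) = Real.log |(NumberField.discr k : ℝ)| := by
  unfold logDisc
  rw [degree_algebraMap]
  have := NumberField.discr_eq_discr_of_ringEquiv (K := k)
    (RingEquiv.ofBijective (algebraMap k k⟮(algebraMap k (AlgebraicClosure k) u)⟯) (adjoin_bij u))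
  rw [← this]
  simp

lemma prox_algebraMap (S : Finset (Place k)) (E : Finset k) (u : k) :
    prox S E (algebraMap k (AlgebraicClosure k) u) = prox₀ S E u := by
  unfold prox
  rw [degree_algebraMap, gen_algebraMap, finsum_weil (adjoin_bij u), Nat.cast_one, div_one]

lemma fails_of_fails₀ (E : Finset k) (n r : ℕ) (hr : 1 ≤ r) (S : Finset (Place k)) (C : ℝ)
    (h : Fails₀ k E n S C) : Fails k E n r S C := by
  rintro hK hA mS ⟨B₁, hB₁⟩ ⟨B₂, hB₂⟩ ⟨B₃, hB₃⟩
  set ι := algebraMap k (AlgebraicClosure k) with hι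
  have hinj : Function.Injective ι := (algebraMap k (AlgebraicClosure k)).injective
  have hE : ∀ x : k, x ∉ E → ∀ a ∈ E, ι x ≠ ι a := by
    intro x hx a ha hxa
    exact hx (hinj hxa ▸ ha)
  have h1 := h (fun x => hK (ι x)) (fun x => hA (ι x)) (fun x => mS (ι x))
    ⟨B₁, fun x => by rw [← height_algebraMap]; exact hB₁ _⟩
    ⟨B₂, fun x => by rw [← height_algebraMap]; exact hB₂ _⟩
    ⟨B₃, fun x hx => by rw [← prox_algebraMap]; exact hB₃ _ (hE x hx)⟩
  refine (h1.image hinj.injOn).mono ?_
  rintro _ ⟨x, ⟨hxE, hx⟩, rfl⟩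
  refine ⟨hE x hxE, ?_, ?_⟩
  · rw [hι, degree_algebraMap]
    exact hr
  · rw [hι, logDisc_algebraMap]
    exact hx

end transfer

/-- **Q1 of MP_e44225_nt is false, over every number field `k`.**
Let `X = ℙ¹` over `k`, `D = [∞] + ∑_{a ∈ E} [a]` with `{0, 1} ⊆ E ⊆ k` finite, `A = O(n)`, `n ≥ 1`.
For every `C > 0` there are `r ≥ 1` and a finite set `S` of places for which the inequality of Q1
fails at infinitely many algebraic points of degree at most `r`.  More precisely, this happens for
every finite `S` that contains all infinite places and at least one finite place, for every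
`0 < C < #S - 2` and every `r ≥ 1` (so already at `k`-rational points). -/
theorem result (k : Type u) [Field k] [NumberField k] (E : Finset k) (h0 : (0 : k) ∈ E)
    (h1 : (1 : k) ∈ E) (n : ℕ) (_hn : 1 ≤ n) :
    (∀ C : ℝ, 0 < C → ∃ r : ℕ, 1 ≤ r ∧ ∃ S : Finset (Place k), Fails k E n r S C) ∧
    (∀ S : Finset (Place k), (∀ v : InfinitePlace k, Sum.inl v ∈ S) →
      (∃ v : FinitePlace k, Sum.inr v ∈ S) →
      ∀ C : ℝ, 0 < C → C < (S.card : ℝ) - 2 → ∀ r : ℕ, 1 ≤ r → Fails k E n r S C) := by
  refine ⟨?_, fun S hS hSf C hC hCS r hr =>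
    fails_of_fails₀ E n r hr S C (fails_of_lt E h0 h1 n S hS hSf C hC hCS)⟩
  intro C hC
  have := infinite_finitePlace (k := k)
  obtain ⟨T, hT⟩ := Infinite.exists_subset_card_eq (FinitePlace k) (⌈C⌉₊ + 3)
  refine ⟨1, le_rfl, (Finset.univ : Finset (InfinitePlace k)).disjSum T, ?_⟩
  refine fails_of_fails₀ E n 1 le_rfl _ C (fails_of_lt E h0 h1 n _ (fun v => by simp) ?_ C hC ?_)
  · have : T.Nonempty := by
      rw [← Finset.card_pos, hT]; omega
    obtain ⟨v, hv⟩ := this
    exact ⟨v, by simpa using hv⟩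
  · rw [Finset.card_disjSum, hT]
    push_cast
    have h2 := Nat.le_ceil C
    have h3 : (0 : ℝ) ≤ ((Finset.univ : Finset (InfinitePlace k)).card : ℝ) := Nat.cast_nonneg _
    linarith

end Pool.Agent.Results.MP_e44225_nt.SUnitDisproof
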