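import Pool.Agent.Helper96.SE.Asm
import Pool.Agent.Helper23.SE.RB
import Pool.Agent.Helper49.SE.HTE
import Pool.Agent.Helper53.SE.APP
import Pool.Agent.Helper59.SE.DSC
import Pool.Agent.Helper66.SE.PLF
import Pool.Agent.Helper70.SE.TRS
import Pool.Agent.Helper74.SE.RH
import Pool.Agent.Helper82.SE.PLI

/-!
# Q1 of MP_e44225_nt is false on superelliptic curves

`X` is the smooth projective curve `y ^ n = c ∏_{a ∈ E} (x - a)` over a number field `k`, `n ≥ 2`,
`E ⊆ k` finite with at least two elements, `c ≠ 0`; `D` is the reduced divisor of all points of `X`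
over `E ∪ {∞}`.  The definitions (`Pt`, `deg`, `ht`, `logDiscr`, `prox`, `Fails`) are in
`Pool/Agent/Helper96/SE/Defs.lean`.
-/

open NumberField
open Pool.Agent.Helper96.SE
open Pool.Agent.Results.MP_e44225_nt.SUnitDisproof (Place)

namespace Pool.Agent.Results.MP_e44225_nt.SuperellipticDisproof

universe u

/-- the main theorem. -/
theorem main : Main.{u} :=
  main_of (rat_of Pool.Agent.Helper53.SE.app Pool.Agent.Helper23.SE.rb Pool.Agent.Helper74.SE.rh)
    (Pool.Agent.Helper70.SE.trs Pool.Agent.Helper82.SE.pli Pool.Agent.Helper66.SE.plf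
      (Pool.Agent.Helper49.SE.hte Pool.Agent.Helper82.SE.pli Pool.Agent.Helper66.SE.plf)
      Pool.Agent.Helper59.SE.dsc)

/-- **Q1 of MP_e44225_nt is false on superelliptic curves, over every number field `k`.**
Let `X` be the smooth projective curve `y ^ n = c ∏_{a ∈ E} (x - a)`, `n ≥ 2`, `#E ≥ 2`, `c ≠ 0`,
and `D` the reduced divisor of all points over `E ∪ {∞}`, or this divisor plus further points `T`.
For every `C > 0` there are `r ≥ 1` and a finite set `S` of places for which the inequality of Q1
fails at infinitely many algebraic points of degree at most `r`.  More precisely, this happens for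
every finite `S` that contains all infinite places and at least one finite place, for every
`0 < C < (#S - 2) / n` and every `r ≥ n`. -/
theorem result (k : Type u) [Field k] [NumberField k] (n : ℕ) (hn : 2 ≤ n) (E : Finset k)
    (hE : 2 ≤ E.card) (c : k) (hc : c ≠ 0) (T : Finset (Pt n E c)) :
    (∀ C : ℝ, 0 < C → ∃ r : ℕ, 1 ≤ r ∧ ∃ S : Finset (Place k), Fails k n E c T r S C) ∧
    (∀ S : Finset (Place k), (∀ v : InfinitePlace k, Sum.inl v ∈ S) →
      (∃ v : FinitePlace k, Sum.inr v ∈ S) →
      ∀ C : ℝ, 0 < C → C < ((S.card : ℝ) - 2) / n → ∀ r : ℕ, n ≤ r → Fails k n E c T r S C) :=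
  ⟨fun C hC => neg_of main k n E c (by omega) hE hc T C hC,
    fun S hS hSf C hC hCS r hr => main k n E c (by omega) hE hc T S hS hSf C hC hCS r hr⟩

end Pool.Agent.Results.MP_e44225_nt.SuperellipticDisproof
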